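import Pool.Agent.Helper63.J.Lower

/-!
The T-junction: the three pieces, gluing of their states.

Coordinates `u = x + y`, `w = x - y`.  The lower piece is the strip `0 ≤ u ≤ 2c+1`, `w ≤ 2q+2`, together
with one more half row of the upper leg.  The upper leg `0 ≤ u ≤ 2m+1`, `w ≥ 2q+3` is the image of a strip
under `up q`, the right leg `u ≥ 2c+1`, `1 ≤ w ≤ 2q+2` the image of a strip under `rot c q`.
-/

set_option autoImplicit false

namespace H47Perc.JJ
open Finset H47Perc.DS H47Perc.SL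

/-! ### the two maps -/

/-- the shift of the upper leg -/
def up (q : ℕ) : ℤ × ℤ ≃ ℤ × ℤ where
  toFun z := (z.1 + q + 1, z.2 - q - 1)
  invFun z := (z.1 - q - 1, z.2 + q + 1)
  left_inv z := by ext <;> simp only <;> ring
  right_inv z := by ext <;> simp only <;> ring

lemma up_apply (q : ℕ) (z : ℤ × ℤ) : up q z = (z.1 + q + 1, z.2 - q - 1) := rfl
lemma up_symm_apply (q : ℕ) (z : ℤ × ℤ) : (up q).symm z = (z.1 - q - 1, z.2 + q + 1) := rfl

lemma up_iso (q : ℕ) : IsIso (up q) := by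
  intro u v
  simp only [up_apply, lattice]
  rw [show u.1 + (q : ℤ) + 1 = v.1 + q + 1 ↔ u.1 = v.1 by omega,
    show u.2 - (q : ℤ) - 1 = v.2 - q - 1 ↔ u.2 = v.2 by omega,
    show u.2 - (q : ℤ) - 1 - (v.2 - q - 1) = u.2 - v.2 by ring,
    show u.1 + (q : ℤ) + 1 - (v.1 + q + 1) = u.1 - v.1 by ring]

/-- the map of the right leg (a quarter turn) -/
def rot (c q : ℕ) : ℤ × ℤ ≃ ℤ × ℤ where
  toFun z := (q + c + 1 - z.2, z.1 - q - 1 + c)
  invFun z := (z.2 + q + 1 - c, q + c + 1 - z.1)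
  left_inv z := by ext <;> simp only <;> ring
  right_inv z := by ext <;> simp only <;> ring

lemma rot_apply (c q : ℕ) (z : ℤ × ℤ) : rot c q z = (q + c + 1 - z.2, z.1 - q - 1 + c) := rfl
lemma rot_symm_apply (c q : ℕ) (z : ℤ × ℤ) :
    (rot c q).symm z = (z.2 + q + 1 - c, q + c + 1 - z.1) := rfl

lemma rot_iso (c q : ℕ) : IsIso (rot c q) := by
  intro u v
  simp only [rot_apply, lattice]
  rw [show (q : ℤ) + c + 1 - u.2 = q + c + 1 - v.2 ↔ u.2 = v.2 by omega,
    show u.1 - (q : ℤ) - 1 + c = v.1 - q - 1 + c ↔ u.1 = v.1 by omega,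
    show u.1 - (q : ℤ) - 1 + c - (v.1 - q - 1 + c) = u.1 - v.1 by ring,
    show (q : ℤ) + c + 1 - u.2 - (q + c + 1 - v.2) = v.2 - u.2 by ring, abs_sub_comm v.2 u.2]
  exact or_comm

/-! ### connectivity of the image -/

lemma map_edge_symm {f : ℤ × ℤ ≃ ℤ × ℤ} {ω : Finset (Sym2 (ℤ × ℤ))} {u v : ℤ × ℤ}
    (h : s(u, v) ∈ ω.map (emb f)) : s(f.symm u, f.symm v) ∈ ω := by
  rw [Finset.mem_map] at h
  obtain ⟨e, he, huv⟩ := h
  induction e using Sym2.ind with
  | _ a b =>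
    rw [emb_mk, Sym2.eq_iff] at huv
    rcases huv with ⟨rfl, rfl⟩ | ⟨rfl, rfl⟩
    · rw [Equiv.symm_apply_apply, Equiv.symm_apply_apply]
      exact he
    · rw [Equiv.symm_apply_apply, Equiv.symm_apply_apply, Sym2.eq_swap]
      exact he

lemma cs_map_iff {f : ℤ × ℤ ≃ ℤ × ℤ} {A A' : Set (ℤ × ℤ)} (hf : ∀ z, f z ∈ A' ↔ z ∈ A)
    (ω : Finset (Sym2 (ℤ × ℤ))) (x y : ℤ × ℤ) :
    cs A' (ω.map (emb f)) (f x) (f y) ↔ cs A ω x y := by
  constructor
  · intro h
    have hle : cs A' (ω.map (emb f)) ≤ Setoid.comap f.symm (cs A ω) := by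
      rw [cs_le_iff]
      constructor
      · intro u v huv
        rw [Setoid.comap_rel]
        exact cs_edge (map_edge_symm huv)
      · intro u v hu hv
        rw [Setoid.comap_rel]
        refine cs_wall ?_ ?_
        · rw [← hf, Equiv.apply_symm_apply]
          exact hu
        · rw [← hf, Equiv.apply_symm_apply]
          exact hv
    have h2 := hle h
    rw [Setoid.comap_rel, Equiv.symm_apply_apply, Equiv.symm_apply_apply] at h2
    exact h2
  · intro h
    have hle : cs A ω ≤ Setoid.comap f (cs A' (ω.map (emb f))) := by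
      rw [cs_le_iff]
      constructor
      · intro a b hab
        rw [Setoid.comap_rel]
        apply cs_edge
        rw [Finset.mem_map]
        exact ⟨s(a, b), hab, rfl⟩
      · intro a b h1 h2
        rw [Setoid.comap_rel]
        exact cs_wall ((hf a).2 h1) ((hf b).2 h2)
    have h2 := hle h
    rw [Setoid.comap_rel] at h2
    exact h2

/-- the left side of the slit -/
def SU (m q : ℕ) : Set (ℤ × ℤ) := {z | z.1 + z.2 = 2 * m + 1 ∧ 2 * (q : ℤ) + 3 ≤ z.1 - z.2}

/-- the lower wall of the right leg -/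
def SR (c : ℕ) : Set (ℤ × ℤ) := {z | z.1 - z.2 = 1 ∧ 2 * (c : ℤ) + 1 ≤ z.1 + z.2}

lemma mem_SU {m q : ℕ} {z : ℤ × ℤ} :
    z ∈ SU m q ↔ z.1 + z.2 = 2 * m + 1 ∧ 2 * (q : ℤ) + 3 ≤ z.1 - z.2 := Iff.rfl
lemma mem_SR {c : ℕ} {z : ℤ × ℤ} : z ∈ SR c ↔ z.1 - z.2 = 1 ∧ 2 * (c : ℤ) + 1 ≤ z.1 + z.2 := Iff.rfl

lemma up_mem (m q : ℕ) (z : ℤ × ℤ) : up q z ∈ SU m q ↔ z ∈ SI (2 * m + 1) := by
  rw [mem_SU, mem_SI, up_apply]
  simp only
  omega

lemma rot_mem (c q : ℕ) (z : ℤ × ℤ) : rot c q z ∈ SR c ↔ z ∈ SI (2 * q + 1) := by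
  rw [mem_SR, mem_SI, rot_apply]
  simp only
  omega

/-! ### the edges of the three pieces -/

lemma low_edge {m c q : ℕ} {a : ℤ} {ω : Finset (Sym2 (ℤ × ℤ))} (h : ω ⊆ lowE m c q a)
    {u v : ℤ × ℤ} (huv : s(u, v) ∈ ω) : 0 ≤ u.1 + u.2 ∧
      ((u.1 + u.2 ≤ 2 * c + 1 ∧ u.1 - u.2 ≤ 2 * q + 2) ∨
        (u.1 + u.2 ≤ 2 * m + 1 ∧ 2 * (q : ℤ) + 2 ≤ u.1 - u.2 ∧ u.1 - u.2 ≤ 2 * q + 3)) := by
  have h1 := h huv
  unfold lowE at h1
  rw [mem_union] at h1
  rcases h1 with h1 | h1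
  · have := mem_reg.1 (mem_edgesIn.1 h1).1
    omega
  · have := mem_reg.1 (mem_edgesIn.1 h1).1
    omega

lemma up_edge {m q : ℕ} {b : ℤ} {ω : Finset (Sym2 (ℤ × ℤ))} (h : ω ⊆ edgesIn (reg m 1 b))
    {u v : ℤ × ℤ} (huv : s(u, v) ∈ ω.map (emb (up q))) :
    0 ≤ u.1 + u.2 ∧ u.1 + u.2 ≤ 2 * m + 1 ∧ 2 * (q : ℤ) + 3 ≤ u.1 - u.2 := by
  have := edge_reg h (map_edge_symm huv)
  rw [up_symm_apply] at this
  simp only at this
  omega

lemma rot_edge {c q : ℕ} {b : ℤ} {ω : Finset (Sym2 (ℤ × ℤ))} (h : ω ⊆ edgesIn (reg q 1 b))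
    {u v : ℤ × ℤ} (huv : s(u, v) ∈ ω.map (emb (rot c q))) :
    2 * (c : ℤ) + 1 ≤ u.1 + u.2 ∧ 1 ≤ u.1 - u.2 ∧ u.1 - u.2 ≤ 2 * q + 2 := by
  have := edge_reg h (map_edge_symm huv)
  rw [rot_symm_apply] at this
  simp only at this
  omega

/-! ### the sites -/

lemma frJ_left {m c q k : ℕ} (h : k ≤ m) : frJ m c q k = up q (fr m 0 k) := by
  unfold frJ
  rw [if_pos h, fr0_apply h, up_apply]
  ext
  · simp only
    ring
  · rfl

lemma frJ_mid {m c q k : ℕ} (h : m < k) (h' : k ≤ c) :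
    frJ m c q k = ((k : ℤ) + q + 1, (k : ℤ) - q - 1) := by
  unfold frJ
  rw [if_neg (by omega), gJ_le h']

lemma frJ_right {m c q k : ℕ} (hm : m ≤ c) (h : c < k) :
    frJ m c q k = rot c q (fr q 0 (k - c - 1)) := by
  unfold frJ
  rw [if_neg (by omega), gJ_gt h, fr_zero, rot_apply]
  unfold fJ
  split_ifs with h1 h2
  · have : k = c + 1 := by omega
    subst this
    ext
    · simp only
      push_cast
      omega
    · simp only
      push_cast
      omega
  · ext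
    · simp only
      omega
    · simp only
      omega
  · ext
    · simp only
      omega
    · simp only
      omega

/-- the sites of the middle and right part are below the level of the upper leg -/
lemma frJ_low {m c q k : ℕ} (hm : m ≤ c) (h : m < k) :
    (frJ m c q k).1 - (frJ m c q k).2 ≤ 2 * q + 2 := by
  by_cases h' : k ≤ c
  · rw [frJ_mid h h']
    simp only
    omega
  · rw [frJ_right hm (by omega), fr_zero, rot_apply]
    simp only
    omega

/-- the sites of the left and middle part are not in the right leg -/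
lemma frJ_sum {m c q k : ℕ} (hm : m ≤ c) (h : k ≤ c) :
    (frJ m c q k).1 + (frJ m c q k).2 ≤ 2 * c ∨ 2 * (q : ℤ) + 3 ≤ (frJ m c q k).1 - (frJ m c q k).2 := by
  by_cases h' : k ≤ m
  · right
    rw [frJ_left h', fr0_apply h', up_apply]
    simp only
    omega
  · left
    rw [frJ_mid (by omega) h]
    simp only
    omega

lemma frJ_last {m c q k : ℕ} (hm : m ≤ c) (h : c + q + 1 ≤ k) : frJ m c q k = ((c : ℤ) + 1, (c : ℤ)) := by
  rw [frJ_right hm (by omega), fr0_wall (by omega), rot_apply]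
  ext
  · simp only
    ring
  · simp only
    ring

lemma frJ_inj {m c q x y : ℕ} (hm : m ≤ c) (h : frJ m c q x = frJ m c q y) :
    x = y ∨ (c + q + 1 ≤ x ∧ c + q + 1 ≤ y) := by
  have key : ∀ k, (k ≤ m ∧ frJ m c q k = ((k : ℤ) + q + 2, (k : ℤ) - q - 1)) ∨
      (m < k ∧ k ≤ c ∧ frJ m c q k = ((k : ℤ) + q + 1, (k : ℤ) - q - 1)) ∨
      (c < k ∧ k ≤ c + q ∧ frJ m c q k = (2 * (c : ℤ) + 2 + q - k, (k : ℤ) - 1 - q)) ∨
      (c + q < k ∧ frJ m c q k = ((c : ℤ) + 1, (c : ℤ))) := by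
    intro k
    by_cases h1 : k ≤ m
    · left
      refine ⟨h1, ?_⟩
      unfold frJ
      rw [if_pos h1]
    by_cases h2 : k ≤ c
    · right; left
      exact ⟨by omega, h2, frJ_mid (by omega) h2⟩
    by_cases h3 : k ≤ c + q
    · right; right; left
      refine ⟨by omega, h3, ?_⟩
      rw [frJ_right hm (by omega), fr_zero, rot_apply]
      ext
      · simp only
        omega
      · simp only
        omega
    · right; right; right
      exact ⟨by omega, frJ_last hm (by omega)⟩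
  rcases key x with ⟨hx, ex⟩ | ⟨hx, hx', ex⟩ | ⟨hx, hx', ex⟩ | ⟨hx, ex⟩ <;>
    rcases key y with ⟨hy, ey⟩ | ⟨hy, hy', ey⟩ | ⟨hy, hy', ey⟩ | ⟨hy, ey⟩ <;>
    (rw [ex, ey, Prod.mk.injEq] at h; omega)

/-! ### the state of the upper leg on the sites -/

lemma comap_up (m c q : ℕ) (hm : m ≤ c) {b : ℤ} {ω : Finset (Sym2 (ℤ × ℤ))}
    (h : ω ⊆ edgesIn (reg m 1 b)) (x y : ℕ) :
    cs (SU m q) (ω.map (emb (up q))) (frJ m c q x) (frJ m c q y) ↔
      (IP.Slit.liftL m (st (2 * m + 1) (fr m 0) ω)) x y ∨ (c + q + 1 ≤ x ∧ c + q + 1 ≤ y) := by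
  have hiso : ∀ z : ℤ × ℤ, z.1 - z.2 ≤ 2 * q + 2 → ∀ z',
      cs (SU m q) (ω.map (emb (up q))) z z' → z' = z := by
    intro z hz z' hzz
    refine cs_isolated ?_ ?_ hzz
    · intro v hv
      have := up_edge h hv
      omega
    · intro hz'
      have := hz'.2
      omega
  constructor
  · intro hc
    by_cases hx : x ≤ m
    · by_cases hy : y ≤ m
      · left
        right
        refine ⟨hx, hy, ?_⟩
        rw [frJ_left hx, frJ_left hy, cs_map_iff (up_mem m q)] at hc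
        exact cs_le_cw _ _ hc
      · have := hiso _ (frJ_low hm (by omega)) _ (Setoid.symm' _ hc)
        rcases frJ_inj hm this with h1 | h1
        · omega
        · omega
    · have := hiso _ (frJ_low hm (by omega)) _ hc
      rcases frJ_inj hm this with h1 | h1
      · left
        left
        exact h1.symm
      · exact Or.inr ⟨h1.2, h1.1⟩
  · rintro ((rfl | ⟨hx, hy, hc⟩) | ⟨hx, hy⟩)
    · exact (cs _ _).refl _
    · rw [frJ_left hx, frJ_left hy, cs_map_iff (up_mem m q)]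
      change cw (2 * m + 1) ω (fr m 0 x) (fr m 0 y) at hc
      refine cs_of_cw (fun u v huv => (edge_reg h huv).2.2.1) ?_ ?_ hc
      · rw [fr0_apply hx]; simp only; omega
      · rw [fr0_apply hy]; simp only; omega
    · rw [frJ_last hm hx, frJ_last hm hy]

/-! ### the state of the right leg on the sites -/

lemma ins_iter (p : ℕ) (t : IP.St) (x y : ℕ) :
    ((IP.ins 0)^[p] t) x y ↔ x = y ∨ (p ≤ x ∧ p ≤ y ∧ t (x - p) (y - p)) := by
  induction p generalizing x y with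
  | zero =>
    rw [Function.iterate_zero, id]
    constructor
    · intro h
      exact Or.inr ⟨by omega, by omega, h⟩
    · rintro (rfl | ⟨_, _, h⟩)
      · exact t.refl _
      · exact h
  | succ p ih =>
    rw [Function.iterate_succ_apply']
    have e : ∀ σ : IP.St, (IP.ins 0 σ) x y ↔ x = y ∨ (x ≠ 0 ∧ y ≠ 0 ∧ σ (x - 1) (y - 1)) := by
      intro σ
      unfold IP.ins
      rw [if_pos rfl]
      change x = y ∨ (x ≠ 0 / 2 ∧ y ≠ 0 / 2 ∧
        σ (IP.unskip (0 / 2) x) (IP.unskip (0 / 2) y)) ↔ _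
      unfold IP.unskip
      simp only [Nat.zero_div, Nat.not_lt_zero, if_false]
    rw [e, ih]
    constructor
    · rintro (h | ⟨h1, h2, h | ⟨h3, h4, h5⟩⟩)
      · exact Or.inl h
      · exact Or.inl (by omega)
      · refine Or.inr ⟨by omega, by omega, ?_⟩
        rw [show x - (p + 1) = x - 1 - p by omega, show y - (p + 1) = y - 1 - p by omega]
        exact h5
    · rintro (h | ⟨h1, h2, h3⟩)
      · exact Or.inl h
      · refine Or.inr ⟨by omega, by omega, Or.inr ⟨by omega, by omega, ?_⟩⟩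
        rw [show x - 1 - p = x - (p + 1) by omega, show y - 1 - p = y - (p + 1) by omega]
        exact h3

lemma comap_rot (m p q : ℕ) {b : ℤ} {ω : Finset (Sym2 (ℤ × ℤ))} (h : ω ⊆ edgesIn (reg q 1 b)) :
    Setoid.comap (frJ m (m + p) q) (cs (SR (m + p)) (ω.map (emb (rot (m + p) q)))) =
      IP.Slit.liftR m ((IP.ins 0)^[p] (st (2 * q + 1) (fr q 0) ω)) := by
  set c := m + p with hc0
  have hm : m ≤ c := by omega
  have hiso : ∀ k : ℕ, k ≤ c → ∀ z',
      cs (SR c) (ω.map (emb (rot c q))) (frJ m c q k) z' → z' = frJ m c q k := by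
    intro k hk z' hzz
    have hs := frJ_sum (q := q) hm hk
    refine cs_isolated ?_ ?_ hzz
    · intro v hv
      have := rot_edge h hv
      omega
    · intro hz'
      have h1 := hz'.1
      have h2 := hz'.2
      omega
  ext x y
  rw [Setoid.comap_rel]
  have hR : (IP.Slit.liftR m ((IP.ins 0)^[p] (st (2 * q + 1) (fr q 0) ω))) x y ↔
      x = y ∨ (m < x ∧ m < y ∧ ((IP.ins 0)^[p] (st (2 * q + 1) (fr q 0) ω)) (x - m - 1) (y - m - 1)) :=
    Iff.rfl
  rw [hR, ins_iter]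
  constructor
  · intro hc
    by_cases hx : x ≤ c
    · rcases frJ_inj hm (hiso x hx _ hc) with h1 | h1
      · exact Or.inl h1.symm
      · omega
    · by_cases hy : y ≤ c
      · rcases frJ_inj hm (hiso y hy _ (Setoid.symm' _ hc)) with h1 | h1
        · exact Or.inl h1
        · omega
      · refine Or.inr ⟨by omega, by omega, Or.inr ⟨by omega, by omega, ?_⟩⟩
        rw [frJ_right hm (by omega), frJ_right hm (by omega), cs_map_iff (rot_mem c q)] at hc
        have := cs_le_cw _ _ hc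
        rw [show x - m - 1 - p = x - c - 1 by omega, show y - m - 1 - p = y - c - 1 by omega]
        exact this
  · rintro (rfl | ⟨hx, hy, h1 | ⟨h2, h3, h4⟩⟩)
    · exact (cs _ _).refl _
    · have : x = y := by omega
      subst this
      exact (cs _ _).refl _
    · rw [frJ_right hm (by omega), frJ_right hm (by omega), cs_map_iff (rot_mem c q)]
      rw [show x - m - 1 - p = x - c - 1 by omega, show y - m - 1 - p = y - c - 1 by omega] at h4
      change cw (2 * q + 1) ω (fr q 0 (x - c - 1)) (fr q 0 (y - c - 1)) at h4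
      refine cs_of_cw (fun u v huv => (edge_reg h huv).2.2.1) ?_ ?_ h4
      · rw [fr_zero]; simp only; omega
      · rw [fr_zero]; simp only; omega

/-! ### gluing -/

/-- the connectivity of the glued configuration -/
def glJ (m c q : ℕ) (ω0 ω1 ω2 : Finset (Sym2 (ℤ × ℤ))) : Setoid (ℤ × ℤ) :=
  cs (LW c) ω0 ⊔ cs (SU m q) (ω1.map (emb (up q))) ⊔ cs (SR c) (ω2.map (emb (rot c q)))

lemma site_left {m c q : ℕ} {z : ℤ × ℤ} (h0 : 0 ≤ z.1 + z.2) (h1 : z.1 + z.2 ≤ 2 * m + 1)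
    (h2 : z.1 - z.2 = 2 * q + 3) : ∃ k, z = frJ m c q k := by
  refine ⟨(z.2 + q + 1).toNat, ?_⟩
  have e : (((z.2 + q + 1).toNat : ℕ) : ℤ) = z.2 + q + 1 := Int.toNat_of_nonneg (by omega)
  rw [frJ_left (by omega), fr0_apply (by omega), up_apply, e]
  ext
  · simp only; omega
  · simp only; omega

lemma site_right {m c q : ℕ} (hm : m ≤ c) {z : ℤ × ℤ} (h0 : z.1 + z.2 = 2 * c + 1)
    (h1 : 1 ≤ z.1 - z.2) (h2 : z.1 - z.2 ≤ 2 * q + 2) : ∃ k, z = frJ m c q k := by
  refine ⟨(z.2 + q + 1).toNat, ?_⟩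
  have e : (((z.2 + q + 1).toNat : ℕ) : ℤ) = z.2 + q + 1 := Int.toNat_of_nonneg (by omega)
  rw [frJ_right hm (by omega), fr_zero, rot_apply]
  ext
  · simp only; omega
  · simp only; omega

theorem comap_glJ (m p q : ℕ) {a b b1 : ℤ} {ω0 ω1 ω2 : Finset (Sym2 (ℤ × ℤ))}
    (h0 : ω0 ⊆ lowE m (m + p) q a) (h1 : ω1 ⊆ edgesIn (reg m 1 b))
    (h2 : ω2 ⊆ edgesIn (reg q 1 b1)) :
    Setoid.comap (frJ m (m + p) q) (glJ m (m + p) q ω0 ω1 ω2) =
      stA (LW (m + p)) (frJ m (m + p) q) ω0 ⊔ IP.Slit.liftL m (st (2 * m + 1) (fr m 0) ω1) ⊔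
        IP.Slit.liftR m ((IP.ins 0)^[p] (st (2 * q + 1) (fr q 0) ω2)) := by
  have hrot := comap_rot m p q h2
  set c := m + p with hc0
  have hm : m ≤ c := by omega
  have step1 : Setoid.comap (frJ m c q) (cs (LW c) ω0 ⊔ cs (SU m q) (ω1.map (emb (up q)))) =
      stA (LW c) (frJ m c q) ω0 ⊔ IP.Slit.liftL m (st (2 * m + 1) (fr m 0) ω1) := by
    rw [IP.PG.comap_sup]
    · apply le_antisymm
      · apply sup_le le_sup_left
        intro x y hxy
        rw [Setoid.comap_rel, comap_up m c q hm h1] at hxy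
        rcases hxy with hxy | ⟨hx, hy⟩
        · exact (le_sup_right : IP.Slit.liftL m (st (2 * m + 1) (fr m 0) ω1) ≤ _) hxy
        · apply (le_sup_left : stA (LW c) (frJ m c q) ω0 ≤ _)
          rw [stA_rel, frJ_last hm hx, frJ_last hm hy]
      · apply sup_le le_sup_left
        intro x y hxy
        apply (le_sup_right : Setoid.comap (frJ m c q) (cs (SU m q) (ω1.map (emb (up q)))) ≤ _)
        rw [Setoid.comap_rel, comap_up m c q hm h1]
        exact Or.inl hxy
    · intro z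
      by_cases g1 : (∀ u, s(z, u) ∉ ω1.map (emb (up q))) ∧ z ∉ SU m q
      · exact Or.inr (Or.inl fun z' hz' => cs_isolated g1.1 g1.2 hz')
      have m1 : z.1 + z.2 ≤ 2 * m + 1 ∧ 2 * (q : ℤ) + 3 ≤ z.1 - z.2 := by
        by_cases g2 : ∀ u, s(z, u) ∉ ω1.map (emb (up q))
        · by_contra hlt
          exact g1 ⟨g2, fun hz => hlt ⟨le_of_eq hz.1, hz.2⟩⟩
        · push Not at g2
          obtain ⟨v, hv⟩ := g2
          exact (up_edge h1 hv).2
      by_cases g0 : ∀ u, s(z, u) ∉ ω0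
      · refine Or.inl fun z' hz' => cs_isolated g0 ?_ hz'
        intro hz
        have := hz.2
        omega
      right; right
      push Not at g0
      obtain ⟨u, hu⟩ := g0
      have m0 := low_edge h0 hu
      obtain ⟨k, hk⟩ := site_left (m := m) (c := c) (q := q) m0.1 m1.1 (by omega)
      exact ⟨k, by rw [← hk], by rw [← hk]⟩
  have step2 : Setoid.comap (frJ m c q) (glJ m c q ω0 ω1 ω2) =
      Setoid.comap (frJ m c q) (cs (LW c) ω0 ⊔ cs (SU m q) (ω1.map (emb (up q)))) ⊔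
      Setoid.comap (frJ m c q) (cs (SR c) (ω2.map (emb (rot c q)))) := by
    unfold glJ
    apply IP.PG.comap_sup
    intro z
    by_cases g2 : (∀ u, s(z, u) ∉ ω2.map (emb (rot c q))) ∧ z ∉ SR c
    · exact Or.inr (Or.inl fun z' hz' => cs_isolated g2.1 g2.2 hz')
    have m2 : 2 * (c : ℤ) + 1 ≤ z.1 + z.2 ∧ 1 ≤ z.1 - z.2 ∧ z.1 - z.2 ≤ 2 * q + 2 := by
      by_cases g3 : ∀ u, s(z, u) ∉ ω2.map (emb (rot c q))
      · have hz : z ∈ SR c := by
          by_contra hlt
          exact g2 ⟨g3, hlt⟩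
        have e1 := hz.1
        have e2 := hz.2
        omega
      · push Not at g3
        obtain ⟨v, hv⟩ := g3
        exact rot_edge h2 hv
    by_cases g0 : (∀ u, s(z, u) ∉ ω0) ∧ z ∉ LW c
    · left
      apply sup_isolated
      · exact fun z' hz' => cs_isolated g0.1 g0.2 hz'
      · intro z' hz'
        refine cs_isolated ?_ ?_ hz'
        · intro v hv
          have := up_edge h1 hv
          omega
        · intro hz
          have := hz.2
          omega
    · have m0 : z.1 + z.2 ≤ 2 * c + 1 := by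
        by_cases g3 : ∀ u, s(z, u) ∉ ω0
        · have hz : z ∈ LW c := by
            by_contra hlt
            exact g0 ⟨g3, hlt⟩
          exact le_of_eq hz.1
        · push Not at g3
          obtain ⟨u, hu⟩ := g3
          have := low_edge h0 hu
          omega
      obtain ⟨k, hk⟩ := site_right (q := q) hm (z := z) (by omega) m2.2.1 m2.2.2
      right; right
      exact ⟨k, by rw [← hk], by rw [← hk]⟩
  rw [step2, step1, hrot]

/-! ### the crossing event -/

/-- the left side of the slit (line `u = 2m+1`, heights `w ≥ 2q+3`) is joined to the right wall of the lower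
leg (line `u = 2c+1`, heights `w ≤ 1`) or to the lower wall of the right leg (line `w = 1`, `u ≥ 2c+1`) -/
def CrJ (m c q : ℕ) (ω : Finset (Sym2 (ℤ × ℤ))) : Prop :=
  ∃ z z' : ℤ × ℤ, z.1 + z.2 = 2 * m + 1 ∧ 2 * (q : ℤ) + 3 ≤ z.1 - z.2 ∧
    ((z'.1 + z'.2 = 2 * c + 1 ∧ z'.1 - z'.2 ≤ 1) ∨ (z'.1 - z'.2 = 1 ∧ 2 * (c : ℤ) + 1 ≤ z'.1 + z'.2)) ∧
    Joined ω z z'

lemma glJ_of_joined {m c q : ℕ} {ω0 ω1 ω2 : Finset (Sym2 (ℤ × ℤ))} {u v : ℤ × ℤ}
    (h : Joined (ω0 ∪ ω1.map (emb (up q)) ∪ ω2.map (emb (rot c q))) u v) :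
    glJ m c q ω0 ω1 ω2 u v := by
  obtain ⟨p⟩ := h
  induction p with
  | nil => exact (glJ _ _ _ _ _ _).refl _
  | @cons a b c' hab p ih =>
    rw [SimpleGraph.fromEdgeSet_adj] at hab
    have hab1 : s(a, b) ∈ ω0 ∪ ω1.map (emb (up q)) ∪ ω2.map (emb (rot c q)) := by exact_mod_cast hab.1
    refine (glJ _ _ _ _ _ _).trans ?_ ih
    rw [mem_union, mem_union] at hab1
    rcases hab1 with (h1 | h1) | h1
    · exact (le_sup_left.trans le_sup_left : cs (LW c) ω0 ≤ glJ m c q ω0 ω1 ω2) (cs_edge h1)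
    · exact (le_sup_right.trans le_sup_left : cs (SU m q) (ω1.map (emb (up q))) ≤
        glJ m c q ω0 ω1 ω2) (cs_edge h1)
    · exact (le_sup_right : cs (SR c) (ω2.map (emb (rot c q))) ≤ glJ m c q ω0 ω1 ω2) (cs_edge h1)

theorem crJ_iff_gl (m c q : ℕ) (hm : m ≤ c) (ω0 ω1 ω2 : Finset (Sym2 (ℤ × ℤ))) :
    CrJ m c q (ω0 ∪ ω1.map (emb (up q)) ∪ ω2.map (emb (rot c q))) ↔
      glJ m c q ω0 ω1 ω2 (frJ m c q m) (frJ m c q (c + q + 1)) := by
  set ω := ω0 ∪ ω1.map (emb (up q)) ∪ ω2.map (emb (rot c q)) with hω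
  have hn1 : frJ m c q m ∈ SU m q := by
    rw [frJ_left le_rfl, up_mem, fr0_apply le_rfl, mem_SI]
    simp only
    omega
  have hlast : frJ m c q (c + q + 1) = ((c : ℤ) + 1, (c : ℤ)) := frJ_last hm le_rfl
  have hL : frJ m c q (c + q + 1) ∈ LW c := by
    rw [hlast, mem_LW]
    simp only
    omega
  have hR : frJ m c q (c + q + 1) ∈ SR c := by
    rw [hlast, mem_SR]
    simp only
    omega
  constructor
  · rintro ⟨z, z', h1, h2, h3, h4⟩
    have g1 : glJ m c q ω0 ω1 ω2 (frJ m c q m) z :=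
      (le_sup_right.trans le_sup_left : cs (SU m q) (ω1.map (emb (up q))) ≤ glJ m c q ω0 ω1 ω2)
        (cs_wall hn1 ⟨h1, h2⟩)
    have g2 : glJ m c q ω0 ω1 ω2 z' (frJ m c q (c + q + 1)) := by
      rcases h3 with h3 | h3
      · exact (le_sup_left.trans le_sup_left : cs (LW c) ω0 ≤ glJ m c q ω0 ω1 ω2) (cs_wall h3 hL)
      · exact (le_sup_right : cs (SR c) (ω2.map (emb (rot c q))) ≤ glJ m c q ω0 ω1 ω2)
          (cs_wall h3 hR)
    exact (glJ _ _ _ _ _ _).trans g1 ((glJ _ _ _ _ _ _).trans (glJ_of_joined h4) g2)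
  · intro h
    set Q : ℤ × ℤ → Prop := fun z => (∃ p ∈ SU m q, Joined ω p z) ∨ CrJ m c q ω with hQ
    have hwall : ∀ u v : ℤ × ℤ, (u ∈ LW c ∨ u ∈ SR c) → Q u → Q v := by
      rintro u v hu (⟨p, hp, hj⟩ | hc)
      · exact Or.inr ⟨p, u, hp.1, hp.2, hu, hj⟩
      · exact Or.inr hc
    have hedge : ∀ u v : ℤ × ℤ, s(u, v) ∈ ω → Q u → Q v := by
      rintro u v huv (⟨p, hp, hj⟩ | hc)
      · exact Or.inl ⟨p, hp, joined_trans hj (joined_edge huv)⟩
      · exact Or.inr hc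
    have hE : ∀ u v : ℤ × ℤ, s(u, v) ∈ ω → Q u = Q v := by
      intro u v huv
      have h2 : s(v, u) ∈ ω := by
        rw [Sym2.eq_swap]
        exact huv
      exact propext ⟨hedge u v huv, hedge v u h2⟩
    have hle : glJ m c q ω0 ω1 ω2 ≤ Setoid.comap Q ⟨Eq, eq_equivalence⟩ := by
      refine sup_le (sup_le ?_ ?_) ?_
      · rw [cs_le_iff]
        constructor
        · intro u v huv
          rw [Setoid.comap_rel]
          exact hE u v (by rw [hω, mem_union, mem_union]; exact Or.inl (Or.inl huv))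
        · intro u v hu hv
          rw [Setoid.comap_rel]
          exact propext ⟨hwall u v (Or.inl hu), hwall v u (Or.inl hv)⟩
      · rw [cs_le_iff]
        constructor
        · intro u v huv
          rw [Setoid.comap_rel]
          exact hE u v (by rw [hω, mem_union, mem_union]; exact Or.inl (Or.inr huv))
        · intro u v hu hv
          rw [Setoid.comap_rel]
          exact propext ⟨fun _ => Or.inl ⟨v, hv, joined_refl _ _⟩,
            fun _ => Or.inl ⟨u, hu, joined_refl _ _⟩⟩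
      · rw [cs_le_iff]
        constructor
        · intro u v huv
          rw [Setoid.comap_rel]
          exact hE u v (by rw [hω, mem_union, mem_union]; exact Or.inr huv)
        · intro u v hu hv
          rw [Setoid.comap_rel]
          exact propext ⟨hwall u v (Or.inr hu), hwall v u (Or.inr hv)⟩
    have h2 := hle h
    rw [Setoid.comap_rel] at h2
    have h3 : Q (frJ m c q (c + q + 1)) :=
      (show Q (frJ m c q m) = Q (frJ m c q (c + q + 1)) from h2) ▸ Or.inl ⟨_, hn1, joined_refl _ _⟩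
    rcases h3 with ⟨p, hp, hj⟩ | hc
    · exact ⟨p, _, hp.1, hp.2, Or.inl hL, hj⟩
    · exact hc

/-- **The crossing event in terms of the three states.** -/
theorem crJ_iff (m p q : ℕ) {a b b1 : ℤ} {ω0 ω1 ω2 : Finset (Sym2 (ℤ × ℤ))}
    (h0 : ω0 ⊆ lowE m (m + p) q a) (h1 : ω1 ⊆ edgesIn (reg m 1 b))
    (h2 : ω2 ⊆ edgesIn (reg q 1 b1)) :
    CrJ m (m + p) q (ω0 ∪ ω1.map (emb (up q)) ∪ ω2.map (emb (rot (m + p) q))) ↔
      IP.Slit.cross m (p + q) (st (2 * m + 1) (fr m 0) ω1)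
        ((IP.ins 0)^[p] (st (2 * q + 1) (fr q 0) ω2)) (stA (LW (m + p)) (frJ m (m + p) q) ω0) := by
  rw [crJ_iff_gl m (m + p) q (by omega)]
  unfold IP.Slit.cross
  rw [← comap_glJ m p q h0 h1 h2, show m + (p + q) + 1 = m + p + q + 1 by ring]
  rfl

end H47Perc.JJ
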