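import Pool.Agent.Helper87.J.Geo
import Pool.Agent.Helper53.J.Defs

/-!
The crossing probability of the T-junction is the trilinear form of the three laws.
-/

set_option autoImplicit false

namespace H47Perc.JJ
open Finset Filter Topology SimpleGraph H47Perc.DS H47Perc.SL
open Pool.Agent.Helper69.RSW (P)

lemma crJ_eq (m c q : ℕ) (ω : Finset (Sym2 (ℤ × ℤ))) :
    JN.CrJ (2 * m + 1) (2 * c + 1) (2 * q + 1) ω ↔ CrJ m c q ω := by
  unfold JN.CrJ CrJ JN.Src JN.Tg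
  constructor
  · rintro ⟨z, z', ⟨h1, h2⟩, h3, h4⟩
    refine ⟨z, z', h1, by omega, ?_, h4⟩
    rcases h3 with h3 | h3
    · exact Or.inl h3
    · exact Or.inr ⟨h3.2, h3.1⟩
  · rintro ⟨z, z', h1, h2, h3, h4⟩
    refine ⟨z, z', ⟨h1, by omega⟩, ?_, h4⟩
    rcases h3 with h3 | h3
    · exact Or.inl h3
    · exact Or.inr ⟨h3.2, h3.1⟩

/-! ### decomposition of the edge set -/

lemma mem_low {m c q : ℕ} {a : ℤ} {u v : ℤ × ℤ} : s(u, v) ∈ lowE m c q a ↔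
    ((0 ≤ u.1 + u.2 ∧ u.1 + u.2 ≤ 2 * c + 1 ∧ a ≤ u.1 - u.2 ∧ u.1 - u.2 ≤ 2 * q + 2) ∧
      (0 ≤ v.1 + v.2 ∧ v.1 + v.2 ≤ 2 * c + 1 ∧ a ≤ v.1 - v.2 ∧ v.1 - v.2 ≤ 2 * q + 2) ∧
      lattice.Adj u v) ∨
    ((0 ≤ u.1 + u.2 ∧ u.1 + u.2 ≤ 2 * m + 1 ∧ 2 * (q : ℤ) + 2 ≤ u.1 - u.2 ∧ u.1 - u.2 ≤ 2 * q + 3) ∧
      (0 ≤ v.1 + v.2 ∧ v.1 + v.2 ≤ 2 * m + 1 ∧ 2 * (q : ℤ) + 2 ≤ v.1 - v.2 ∧ v.1 - v.2 ≤ 2 * q + 3) ∧
      lattice.Adj u v) := by
  unfold lowE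
  rw [mem_union, mem_edgesIn, mem_edgesIn, mem_reg, mem_reg, mem_reg, mem_reg]

lemma mem_up {m q : ℕ} {b : ℤ} {u v : ℤ × ℤ} :
    s(u, v) ∈ (edgesIn (reg m 1 b)).map (emb (up q)) ↔
      (0 ≤ u.1 + u.2 ∧ u.1 + u.2 ≤ 2 * m + 1 ∧ 2 * (q : ℤ) + 3 ≤ u.1 - u.2 ∧
        u.1 - u.2 ≤ b + 2 * q + 2) ∧
      (0 ≤ v.1 + v.2 ∧ v.1 + v.2 ≤ 2 * m + 1 ∧ 2 * (q : ℤ) + 3 ≤ v.1 - v.2 ∧
        v.1 - v.2 ≤ b + 2 * q + 2) ∧ lattice.Adj u v := by
  rw [← edgesIn_map (up_iso q), mem_edgesIn, mem_map_equiv, mem_map_equiv, mem_reg, mem_reg,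
    up_symm_apply, up_symm_apply]
  simp only
  constructor
  · rintro ⟨h1, h2, h3⟩
    exact ⟨by omega, by omega, h3⟩
  · rintro ⟨h1, h2, h3⟩
    exact ⟨by omega, by omega, h3⟩

lemma mem_rot {c q : ℕ} {b : ℤ} {u v : ℤ × ℤ} :
    s(u, v) ∈ (edgesIn (reg q 1 b)).map (emb (rot c q)) ↔
      (1 ≤ u.1 - u.2 ∧ u.1 - u.2 ≤ 2 * q + 2 ∧ 2 * (c : ℤ) + 1 ≤ u.1 + u.2 ∧
        u.1 + u.2 ≤ b + 2 * c) ∧
      (1 ≤ v.1 - v.2 ∧ v.1 - v.2 ≤ 2 * q + 2 ∧ 2 * (c : ℤ) + 1 ≤ v.1 + v.2 ∧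
        v.1 + v.2 ≤ b + 2 * c) ∧ lattice.Adj u v := by
  rw [← edgesIn_map (rot_iso c q), mem_edgesIn, mem_map_equiv, mem_map_equiv, mem_reg, mem_reg,
    rot_symm_apply, rot_symm_apply]
  simp only
  constructor
  · rintro ⟨h1, h2, h3⟩
    exact ⟨by omega, by omega, h3⟩
  · rintro ⟨h1, h2, h3⟩
    exact ⟨by omega, by omega, h3⟩

theorem jE_eq (m p q : ℕ) {M : ℤ} (h1 : 2 * ((m + p : ℕ) : ℤ) + 1 ≤ M) (h2 : 2 * (q : ℤ) + 3 ≤ M) :
    JN.jE (2 * m + 1) (2 * ((m + p : ℕ) : ℤ) + 1) (2 * q + 1) M =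
      lowE m (m + p) q (-M) ∪ (edgesIn (reg m 1 (M - 2 * q - 2))).map (emb (up q)) ∪
        (edgesIn (reg q 1 (M - 2 * ((m + p : ℕ) : ℤ)))).map (emb (rot (m + p) q)) := by
  classical
  ext e
  induction e using Sym2.ind with
  | _ u v =>
    unfold JN.jE
    rw [mem_filter, mem_union, mem_union, mem_low, mem_up, mem_rot, mem_edgesIn, JN.mem_dom,
      JN.mem_dom, JN.cutJ_mk, abs_le, abs_le]
    unfold JN.InJ
    push_cast at h1 ⊢
    constructor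
    · rintro ⟨⟨g1, g2, h3⟩, h4⟩
      have h5 := adj_level h3
      have h6 := adj_sum h3
      by_cases hc : u.1 - u.2 ≤ 2 * q + 2 ∧ v.1 - v.2 ≤ 2 * q + 2
      · by_cases hd : u.1 + u.2 ≤ 2 * (m + p) + 1 ∧ v.1 + v.2 ≤ 2 * (m + p) + 1
        · left; left; left
          exact ⟨by omega, by omega, h3⟩
        · right
          exact ⟨by omega, by omega, h3⟩
      · by_cases hd : 2 * (q : ℤ) + 3 ≤ u.1 - u.2 ∧ 2 * (q : ℤ) + 3 ≤ v.1 - v.2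
        · left; right
          exact ⟨by omega, by omega, h3⟩
        · left; left; right
          exact ⟨by omega, by omega, h3⟩
    · rintro (((⟨g1, g2, h3⟩ | ⟨g1, g2, h3⟩) | ⟨g1, g2, h3⟩) | ⟨g1, g2, h3⟩)
      · exact ⟨⟨by omega, by omega, h3⟩, by omega⟩
      · exact ⟨⟨by omega, by omega, h3⟩, by omega⟩
      · exact ⟨⟨by omega, by omega, h3⟩, by omega⟩
      · exact ⟨⟨by omega, by omega, h3⟩, by omega⟩

lemma disjJ_up (m c q : ℕ) (a b : ℤ) :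
    Disjoint (lowE m c q a) ((edgesIn (reg m 1 b)).map (emb (up q))) := by
  rw [Finset.disjoint_left]
  intro e
  induction e using Sym2.ind with
  | _ u v =>
    rw [mem_low, mem_up]
    rintro (⟨h1, h2, h3⟩ | ⟨h1, h2, h3⟩) ⟨h4, h5, _⟩
    · omega
    · have := adj_level h3
      omega

lemma disjJ_rot (m c q : ℕ) (hm : m ≤ c) (a b b1 : ℤ) :
    Disjoint (lowE m c q a ∪ (edgesIn (reg m 1 b)).map (emb (up q)))
      ((edgesIn (reg q 1 b1)).map (emb (rot c q))) := by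
  rw [Finset.disjoint_left]
  intro e
  induction e using Sym2.ind with
  | _ u v =>
    rw [mem_union, mem_low, mem_up, mem_rot]
    rintro ((⟨h1, h2, h3⟩ | ⟨h1, h2, h3⟩) | ⟨h1, h2, h3⟩) ⟨h4, h5, _⟩
    · have := adj_sum h3
      omega
    · have := adj_sum h3
      omega
    · omega

/-! ### the probability in terms of the laws -/

lemma In_pow_single (p : ℕ) (σ : IP.St) (x : ℝ) :
    ((IP.In 0) ^ p) (Finsupp.single σ x) = Finsupp.single ((IP.ins 0)^[p] σ) x := by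
  induction p with
  | zero => rfl
  | succ p ih =>
    rw [pow_succ', Module.End.mul_apply, ih, IP.In_single, Function.iterate_succ_apply']

theorem pJ_law (m p q : ℕ) {M : ℤ} (h1 : 2 * ((m + p : ℕ) : ℤ) + 1 ≤ M) (h2 : 2 * (q : ℤ) + 3 ≤ M) :
    JN.pJ (2 * m + 1) (2 * ((m + p : ℕ) : ℤ) + 1) (2 * q + 1) M =
      IP.Slit.tri m (p + q) (law (2 * m + 1) (edgesIn (reg m 1 (M - 2 * q - 2))) (fr m 0))
        (((IP.In 0) ^ p) (law (2 * q + 1) (edgesIn (reg q 1 (M - 2 * ((m + p : ℕ) : ℤ)))) (fr q 0)))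
        (lawA (LW (m + p)) (lowE m (m + p) q (-M)) (frJ m (m + p) q)) := by
  classical
  set F0 := lowE m (m + p) q (-M) with hF0
  set F1 := edgesIn (reg m 1 (M - 2 * q - 2)) with hF1
  set F2 := edgesIn (reg q 1 (M - 2 * ((m + p : ℕ) : ℤ))) with hF2
  have d1 : Disjoint F0 (F1.map (emb (up q))) := disjJ_up m (m + p) q _ _
  have d2 : Disjoint (F0 ∪ F1.map (emb (up q))) (F2.map (emb (rot (m + p) q))) :=
    disjJ_rot m (m + p) q (by omega) _ _ _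
  have e1 : JN.pJ (2 * m + 1) (2 * ((m + p : ℕ) : ℤ) + 1) (2 * q + 1) M =
      ∑ ω0 ∈ F0.powerset, ∑ ω1 ∈ F1.powerset, ∑ ω2 ∈ F2.powerset,
        (1 / 2 : ℝ) ^ #F1 * (1 / 2) ^ #F2 * (1 / 2) ^ #F0 *
          IP.Slit.cf m (p + q) (st (2 * m + 1) (fr m 0) ω1)
            ((IP.ins 0)^[p] (st (2 * q + 1) (fr q 0) ω2))
            (stA (LW (m + p)) (frJ m (m + p) q) ω0) := by
    unfold JN.pJ P
    rw [jE_eq m p q h1 h2, ← hF0, ← hF1, ← hF2, card_filter, Nat.cast_sum]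
    simp only [Nat.cast_ite, Nat.cast_one, Nat.cast_zero]
    rw [sum_powerset_union d2, sum_powerset_union d1, card_union_of_disjoint d2,
      card_union_of_disjoint d1, card_map, card_map, sum_div]
    refine sum_congr rfl fun ω0 h0 => ?_
    rw [sum_powerset_map, sum_div]
    refine sum_congr rfl fun ω1 h1 => ?_
    rw [sum_powerset_map, sum_div]
    refine sum_congr rfl fun ω2 h2 => ?_
    rw [mem_powerset] at h0 h1 h2
    have h := crJ_iff m p q h0 h1 h2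
    rw [← crJ_eq] at h
    unfold IP.Slit.cf
    by_cases hc : IP.Slit.cross m (p + q) (st (2 * m + 1) (fr m 0) ω1)
        ((IP.ins 0)^[p] (st (2 * q + 1) (fr q 0) ω2)) (stA (LW (m + p)) (frJ m (m + p) q) ω0)
    · have h' := h.2 hc
      rw [if_pos hc, if_pos h', pow_add, pow_add]
      simp only [one_div, inv_pow]
      field_simp
    · have h' := fun g => hc (h.1 g)
      rw [if_neg hc, if_neg h', zero_div, mul_zero]
  rw [e1]
  have e2 : ((IP.In 0) ^ p) (law (2 * q + 1) F2 (fr q 0)) =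
      ∑ ω ∈ F2.powerset, Finsupp.single ((IP.ins 0)^[p] (st (2 * q + 1) (fr q 0) ω)) ((1 / 2) ^ #F2) := by
    unfold law
    rw [map_sum]
    exact sum_congr rfl fun ω _ => In_pow_single _ _ _
  rw [e2]
  unfold law lawA
  rw [IP.Slit.tri_sums, sum_comm]
  refine sum_congr rfl fun ω1 _ => ?_
  rw [sum_comm]

lemma law_upper (n N : ℕ) : law (2 * n + 1) (edgesIn (reg n 1 (2 * N + 1))) (fr n 0) =
    ((IP.T n 0) ^ N) (Finsupp.single (IP.bot n) 1) := by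
  rw [law_reflect, ← zb_eq, T_zb]
  have h2 := law_strip n (-(N : ℕ)) N
  have a3 : 2 * (-((N : ℕ) : ℤ)) + 1 = 2 - (2 * N + 1) := by ring
  have a4 : -((N : ℕ) : ℤ) + ((N : ℕ) : ℤ) = 0 := by ring
  rw [a3, a4] at h2
  simp only [mul_zero, zero_add] at h2
  rw [h2]

lemma law_lower (n N : ℕ) : law (2 * n + 1) (edgesIn (reg n (-(2 * N + 1)) 1)) (fr n 0) =
    ((IP.T n 0) ^ (N + 1)) (Finsupp.single (IP.bot n) 1) := by
  rw [← zb_eq, T_zb]
  have h1 := law_strip n (-(N + 1 : ℕ)) (N + 1)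
  have a1 : 2 * (-(((N + 1 : ℕ)) : ℤ)) + 1 = -(2 * N + 1) := by push_cast; ring
  have a2 : -(((N + 1 : ℕ)) : ℤ) + ((N + 1 : ℕ) : ℤ) = 0 := by ring
  rw [a1, a2] at h1
  simp only [mul_zero, zero_add] at h1
  rw [h1]

/-- the operator of the lower piece above the level `1` -/
noncomputable def KJ (m c q : ℕ) : IP.M →ₗ[ℝ] IP.M :=
  upR 0 (2 * m + 1) ∘ₗ upR 1 (2 * c + 1) ∘ₗ IP.In 0 ∘ₗ (DD c ^ q)

lemma KJ_apply (m c q : ℕ) (v : IP.M) : KJ m c q v =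
    upR 0 (2 * m + 1) (upR 1 (2 * c + 1) (IP.In 0 ((DD c ^ q) v))) := rfl

/-- the crossing probability of the truncated T-junction in terms of the transfer matrices -/
theorem pJ_T (m p q N : ℕ) :
    JN.pJ (2 * m + 1) (2 * ((m + p : ℕ) : ℤ) + 1) (2 * q + 1) (2 * ((N + (m + p + q + 1) : ℕ) : ℤ) + 1) =
      IP.Slit.tri m (p + q) (((IP.T m 0) ^ (N + (m + p))) (Finsupp.single (IP.bot m) 1))
        (((IP.In 0) ^ p) (((IP.T q 0) ^ (N + (q + 1))) (Finsupp.single (IP.bot q) 1)))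
        (KJ m (m + p) q (((IP.T (m + p) 0) ^ (N + (m + p + q + 2))) (Finsupp.single (IP.bot (m + p)) 1))) := by
  rw [pJ_law m p q (by push_cast; omega) (by push_cast; omega), law_low m (m + p) q (by omega)
    (by push_cast; omega), KJ_apply]
  have e1 : 2 * ((N + (m + p + q + 1) : ℕ) : ℤ) + 1 - 2 * q - 2 = 2 * ((N + (m + p) : ℕ) : ℤ) + 1 := by
    push_cast; ring
  have e2 : 2 * ((N + (m + p + q + 1) : ℕ) : ℤ) + 1 - 2 * ((m + p : ℕ) : ℤ) =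
      2 * ((N + (q + 1) : ℕ) : ℤ) + 1 := by
    push_cast; ring
  rw [e1, e2, law_upper, law_upper, law_lower (m + p) (N + (m + p + q + 1))]
  rfl

/-! ### the limit -/

lemma tri_smul1 (n1 n2 : ℕ) (x : ℝ) (v1 v2 v : IP.M) :
    IP.Slit.tri n1 n2 (x • v1) v2 v = x * IP.Slit.tri n1 n2 v1 v2 v := by
  have s1 : v1.support ⊆ v1.support := subset_rfl
  have s2 : v2.support ⊆ v2.support := subset_rfl
  have s3 : v.support ⊆ v.support := subset_rfl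
  rw [IP.Slit.tri_eq_sum n1 n2 (Finsupp.support_smul (b := x) (g := v1)) s2 s3,
    IP.Slit.tri_eq_sum n1 n2 s1 s2 s3, mul_sum]
  refine sum_congr rfl fun t1 _ => ?_
  rw [mul_sum]
  refine sum_congr rfl fun t2 _ => ?_
  rw [mul_sum]
  refine sum_congr rfl fun σ _ => ?_
  rw [Finsupp.smul_apply, smul_eq_mul]
  ring

lemma tri_smul2 (n1 n2 : ℕ) (x : ℝ) (v1 v2 v : IP.M) :
    IP.Slit.tri n1 n2 v1 (x • v2) v = x * IP.Slit.tri n1 n2 v1 v2 v := by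
  have s1 : v1.support ⊆ v1.support := subset_rfl
  have s2 : v2.support ⊆ v2.support := subset_rfl
  have s3 : v.support ⊆ v.support := subset_rfl
  rw [IP.Slit.tri_eq_sum n1 n2 s1 (Finsupp.support_smul (b := x) (g := v2)) s3,
    IP.Slit.tri_eq_sum n1 n2 s1 s2 s3, mul_sum]
  refine sum_congr rfl fun t1 _ => ?_
  rw [mul_sum]
  refine sum_congr rfl fun t2 _ => ?_
  rw [mul_sum]
  refine sum_congr rfl fun σ _ => ?_
  rw [Finsupp.smul_apply, smul_eq_mul]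
  ring

lemma tri_smul3 (n1 n2 : ℕ) (x : ℝ) (v1 v2 v : IP.M) :
    IP.Slit.tri n1 n2 v1 v2 (x • v) = x * IP.Slit.tri n1 n2 v1 v2 v := by
  have s1 : v1.support ⊆ v1.support := subset_rfl
  have s2 : v2.support ⊆ v2.support := subset_rfl
  have s3 : v.support ⊆ v.support := subset_rfl
  rw [IP.Slit.tri_eq_sum n1 n2 s1 s2 (Finsupp.support_smul (b := x) (g := v)),
    IP.Slit.tri_eq_sum n1 n2 s1 s2 s3, mul_sum]
  refine sum_congr rfl fun t1 _ => ?_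
  rw [mul_sum]
  refine sum_congr rfl fun t2 _ => ?_
  rw [mul_sum]
  refine sum_congr rfl fun σ _ => ?_
  rw [Finsupp.smul_apply, smul_eq_mul]
  ring

lemma Sup_expand {k : ℕ} {v : IP.M} (hv : v ∈ IP.Sup (IP.W k)) :
    v = ∑ σ ∈ (IP.W_finite k).toFinset, v σ • Finsupp.single σ (1 : ℝ) := by
  classical
  have hsub : v.support ⊆ (IP.W_finite k).toFinset := by
    intro σ hσ
    rw [Set.Finite.mem_toFinset]
    exact ((Finsupp.mem_supported ℝ v).1 hv) hσ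
  conv_lhs => rw [← Finsupp.sum_single v]
  rw [Finsupp.sum_of_support_subset v hsub]
  · refine sum_congr rfl fun σ _ => ?_
    rw [Finsupp.smul_single, smul_eq_mul, mul_one]
  · intro σ _
    rw [Finsupp.single_zero]

lemma tri_expand (n1 n2 : ℕ) (A1 A2 A3 : IP.M →ₗ[ℝ] IP.M) {k1 k2 k3 : ℕ} {v1 v2 v : IP.M}
    (h1 : v1 ∈ IP.Sup (IP.W k1)) (h2 : v2 ∈ IP.Sup (IP.W k2)) (h3 : v ∈ IP.Sup (IP.W k3)) :
    IP.Slit.tri n1 n2 (A1 v1) (A2 v2) (A3 v) =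
      ∑ t1 ∈ (IP.W_finite k1).toFinset, ∑ t2 ∈ (IP.W_finite k2).toFinset,
        ∑ σ ∈ (IP.W_finite k3).toFinset, v1 t1 * (v2 t2 * (v σ *
          IP.Slit.tri n1 n2 (A1 (Finsupp.single t1 1)) (A2 (Finsupp.single t2 1))
            (A3 (Finsupp.single σ 1)))) := by
  conv_lhs => rw [Sup_expand h1, Sup_expand h2, Sup_expand h3]
  rw [map_sum, map_sum, map_sum, IP.Slit.tri_sum1]
  refine sum_congr rfl fun t1 _ => ?_
  rw [map_smul, tri_smul1, IP.Slit.tri_sum2, mul_sum]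
  refine sum_congr rfl fun t2 _ => ?_
  rw [map_smul, tri_smul2, IP.Slit.tri_sum3, mul_sum, mul_sum]
  refine sum_congr rfl fun σ _ => ?_
  rw [map_smul, tri_smul3]

theorem tri_tendsto_lin (n1 n2 : ℕ) (A1 A2 A3 : IP.M →ₗ[ℝ] IP.M) {k1 k2 k3 : ℕ} {v1 v2 v : ℕ → IP.M}
    {w1 w2 w : IP.M} (h1 : ∀ N, v1 N ∈ IP.Sup (IP.W k1)) (h2 : ∀ N, v2 N ∈ IP.Sup (IP.W k2))
    (h : ∀ N, v N ∈ IP.Sup (IP.W k3)) (g1 : w1 ∈ IP.Sup (IP.W k1)) (g2 : w2 ∈ IP.Sup (IP.W k2))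
    (g : w ∈ IP.Sup (IP.W k3)) (l1 : ∀ σ, Tendsto (fun N => v1 N σ) atTop (𝓝 (w1 σ)))
    (l2 : ∀ σ, Tendsto (fun N => v2 N σ) atTop (𝓝 (w2 σ)))
    (l : ∀ σ, Tendsto (fun N => v N σ) atTop (𝓝 (w σ))) :
    Tendsto (fun N => IP.Slit.tri n1 n2 (A1 (v1 N)) (A2 (v2 N)) (A3 (v N))) atTop
      (𝓝 (IP.Slit.tri n1 n2 (A1 w1) (A2 w2) (A3 w))) := by
  rw [tri_expand n1 n2 A1 A2 A3 g1 g2 g]
  have e : (fun N => IP.Slit.tri n1 n2 (A1 (v1 N)) (A2 (v2 N)) (A3 (v N))) = fun N =>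
      ∑ t1 ∈ (IP.W_finite k1).toFinset, ∑ t2 ∈ (IP.W_finite k2).toFinset,
        ∑ σ ∈ (IP.W_finite k3).toFinset, v1 N t1 * (v2 N t2 * (v N σ *
          IP.Slit.tri n1 n2 (A1 (Finsupp.single t1 1)) (A2 (Finsupp.single t2 1))
            (A3 (Finsupp.single σ 1)))) := by
    funext N
    rw [tri_expand n1 n2 A1 A2 A3 (h1 N) (h2 N) (h N)]
  rw [e]
  refine tendsto_finsetSum _ fun t1 _ => tendsto_finsetSum _ fun t2 _ => tendsto_finsetSum _ fun σ _ => ?_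
  exact (l1 t1).mul ((l2 t2).mul ((l σ).mul tendsto_const_nhds))

/-- **The crossing probability of the infinite T-junction** (`i = 2m+1`, `L = 2(m+p)+1`, `h = 2q+1`) is
the trilinear form of the three stationary vectors. -/
theorem pJ_tendsto (m p q : ℕ) :
    Tendsto (fun M : ℕ => JN.pJ (2 * m + 1) (2 * ((m + p : ℕ) : ℤ) + 1) (2 * q + 1) M) atTop
      (𝓝 (IP.Slit.tri m (p + q) (IP.P m 0) (((IP.In 0) ^ p) (IP.P q 0))
        (KJ m (m + p) q (IP.P (m + p) 0)))) := by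
  have hb : ∀ n, Finsupp.single (IP.bot n) (1 : ℝ) ∈ IP.Sup (IP.W n) := by
    intro n
    apply Finsupp.single_mem_supported
    exact IP.bot_W n
  have hshift : ∀ c : ℕ, Tendsto (fun N : ℕ => N + c) atTop atTop := tendsto_add_atTop_nat
  have h := tri_tendsto_lin m (p + q) LinearMap.id ((IP.In 0) ^ p) (KJ m (m + p) q)
    (v1 := fun N => ((IP.T m 0) ^ (N + (m + p))) (Finsupp.single (IP.bot m) 1))
    (v2 := fun N => ((IP.T q 0) ^ (N + (q + 1))) (Finsupp.single (IP.bot q) 1))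
    (v := fun N => ((IP.T (m + p) 0) ^ (N + (m + p + q + 2))) (Finsupp.single (IP.bot (m + p)) 1))
    (fun N => IP.PG.T_pow_Sup m 0 _ (hb m)) (fun N => IP.PG.T_pow_Sup q 0 _ (hb q))
    (fun N => IP.PG.T_pow_Sup (m + p) 0 _ (hb _)) (IP.P_Sup m 0) (IP.P_Sup q 0) (IP.P_Sup _ 0)
    (fun σ => (IP.Slit.T_pow_tendsto m σ).comp (hshift _))
    (fun σ => (IP.Slit.T_pow_tendsto q σ).comp (hshift _))
    (fun σ => (IP.Slit.T_pow_tendsto (m + p) σ).comp (hshift _))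
  have hodd : Tendsto (fun N : ℕ => JN.pJ (2 * m + 1) (2 * ((m + p : ℕ) : ℤ) + 1) (2 * q + 1)
      (2 * ((N + (m + p + q + 1) : ℕ) : ℤ) + 1)) atTop
      (𝓝 (IP.Slit.tri m (p + q) (IP.P m 0) (((IP.In 0) ^ p) (IP.P q 0))
        (KJ m (m + p) q (IP.P (m + p) 0)))) := by
    refine h.congr fun N => ?_
    rw [pJ_T]
    rfl
  have hmono : Monotone (fun M : ℕ => JN.pJ (2 * m + 1) (2 * ((m + p : ℕ) : ℤ) + 1) (2 * q + 1)
      (M : ℤ)) := by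
    intro M M' hM
    exact JN.pJ_mono (by exact_mod_cast hM)
  have hsub : Tendsto (fun N : ℕ => 2 * (N + (m + p + q + 1)) + 1) atTop atTop :=
    tendsto_atTop_mono (fun N => by simp only [id]; omega) tendsto_id
  rw [tendsto_iff_tendsto_subseq_of_monotone hmono hsub]
  refine hodd.congr fun N => ?_
  simp only [Function.comp_apply]
  push_cast
  rfl

end H47Perc.JJ
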